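import Pool.Agent.Helper18.CL.Defs

/-!
# CB for a prime `ℓ`: R1, from coprime pairs to all pairs
-/

set_option autoImplicit false

namespace Pool.Agent.Helper81.CL

open NumberField Polynomial Pool.Agent.Helper4.CB Pool.Agent.Helper18.CL

/-- the facts about norms which are used (helpers 98, 60) -/
structure Facts (l : ℕ) : Prop where
  mul : ∀ {F : Type} [Field F] {a b b' : F}, IsNm l a b → IsNm l a b' → IsNm l a (b * b')
  pow : ∀ {F : Type} [Field F] (a b : F), IsNm l a (b ^ l)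
  self : ∀ {F : Type} [Field F] (a : F), IsNm l a ((-1) ^ (l + 1) * a)
  map : ∀ {F E : Type} [Field F] [Field E] [Algebra F E] {a b : F}, IsNm l a b →
    IsNm l (algebraMap F E a) (algebraMap F E b)
  symm : ∀ (F : Type) [Field F] [CharZero F] (ζ : F), IsPrimitiveRoot ζ l → ∀ a b : F, a ≠ 0 →
    b ≠ 0 → IsNm l a b → IsNm l b a

/-- norms: products of powers on the right -/
theorem isNm_prod {F : Type} [Field F] {l : ℕ} (H : Facts l) {ι : Type} (s : Finset ι) (a : F)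
    (g : ι → F) (n : ι → ℕ) (h : ∀ i ∈ s, IsNm l a (g i)) : IsNm l a (∏ i ∈ s, g i ^ n i) := by
  classical
  have h1 : IsNm l a 1 := by simpa using H.pow a 1
  have hp : ∀ (b : F) (m : ℕ), IsNm l a b → IsNm l a (b ^ m) := by
    intro b m hb
    induction m with
    | zero => simpa using h1
    | succ m ih =>
      rw [pow_succ]
      exact H.mul ih hb
  induction s using Finset.induction_on with
  | empty => simpa using h1
  | insert i s hi ih =>
    rw [Finset.prod_insert hi]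
    exact H.mul (hp _ _ (h i (Finset.mem_insert_self _ _)))
      (ih fun j hj => h j (Finset.mem_insert_of_mem hj))

/-- norms: products of powers on both sides -/
theorem isNm_prod_prod {F : Type} [Field F] [CharZero F] {l : ℕ} (H : Facts l) {ζ : F}
    (hζ : IsPrimitiveRoot ζ l) {ι : Type} [Fintype ι] (g : ι → F) (hg : ∀ i, g i ≠ 0)
    (h : ∀ i j, IsNm l (g i) (g j)) (m n : ι → ℕ) :
    IsNm l (∏ i, g i ^ m i) (∏ i, g i ^ n i) := by
  have hm : (∏ i, g i ^ m i) ≠ 0 := Finset.prod_ne_zero_iff.2 fun i _ => pow_ne_zero _ (hg i)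
  have hn : (∏ i, g i ^ n i) ≠ 0 := Finset.prod_ne_zero_iff.2 fun i _ => pow_ne_zero _ (hg i)
  refine H.symm F ζ hζ _ _ hn hm ?_
  refine isNm_prod H _ _ _ _ fun i _ => ?_
  refine H.symm F ζ hζ _ _ (hg i) hn ?_
  exact isNm_prod H _ _ _ _ fun j _ => h i j

/-- change both entries by `l`-th powers -/
theorem isNm_mul_pow {F : Type} [Field F] [CharZero F] {l : ℕ} (H : Facts l) {ζ : F}
    (hζ : IsPrimitiveRoot ζ l) {a b : F} (ha : a ≠ 0) (hb : b ≠ 0) {r s : F} (hr : r ≠ 0)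
    (hs : s ≠ 0) (h : IsNm l a b) : IsNm l (a * r ^ l) (b * s ^ l) := by
  have h1 : IsNm l a (b * s ^ l) := H.mul h (H.pow a s)
  have hbs : b * s ^ l ≠ 0 := mul_ne_zero hb (pow_ne_zero _ hs)
  have har : a * r ^ l ≠ 0 := mul_ne_zero ha (pow_ne_zero _ hr)
  have h2 : IsNm l (b * s ^ l) a := H.symm F ζ hζ _ _ ha hbs h1
  exact H.symm F ζ hζ _ _ hbs har (H.mul h2 (H.pow _ r))

/-- `(a, a)` is a norm pair once the sign is an `l`-th power -/
theorem isNm_same {F : Type} [Field F] {l J : ℕ} (H : Facts l) (hl : l.Prime) (hJ : 2 ≤ J) {ζ : F}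
    (hζ : IsPrimitiveRoot ζ (l ^ J)) (a : F) : IsNm l a a := by
  have h1 := H.self a
  obtain ⟨u, hu⟩ : ∃ u : F, u ^ l = (-1) ^ (l + 1) := by
    rcases hl.eq_two_or_odd' with rfl | ho
    · have h4 : IsPrimitiveRoot (ζ ^ (2 ^ (J - 2))) 4 := by
        refine hζ.pow (by positivity) ?_
        have : (4 : ℕ) = 2 ^ 2 := by norm_num
        rw [this, ← pow_add]
        congr 1
        omega
      have h2 : IsPrimitiveRoot ((ζ ^ (2 ^ (J - 2))) ^ 2) 2 := h4.pow (by norm_num) (by norm_num)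
      refine ⟨ζ ^ (2 ^ (J - 2)), ?_⟩
      rw [h2.eq_neg_one_of_two_right]
      norm_num
    · refine ⟨1, ?_⟩
      rw [one_pow, Even.neg_one_pow (by simpa using ho.add_one)]
  have h3 := H.mul h1 (H.pow a u)
  have h4 : (-1 : F) ^ (l + 1) * a * u ^ l = a := by
    rw [hu]
    have : (-1 : F) ^ (l + 1) * (-1) ^ (l + 1) = 1 := by
      rw [← mul_pow]
      norm_num
    calc (-1 : F) ^ (l + 1) * a * (-1) ^ (l + 1) = ((-1 : F) ^ (l + 1) * (-1) ^ (l + 1)) * a := by
          ring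
      _ = a := by rw [this, one_mul]
  rwa [h4] at h3

/-- the decomposition of helper15 -/
def Decomp (K : Type) [Field K] [NumberField K] (l : ℕ) : Prop :=
  ∃ (N1 : ℕ) (W : Finset (𝓞 K)), N1 ≠ 0 ∧ (0 : 𝓞 K) ∉ W ∧ ∀ (J : ℕ) (a b : K), a ≠ 0 → b ≠ 0 →
    (∀ p : Pl K, BadL l J p → p.valuation K a = 1 ∧ p.valuation K b = 1) →
    ∃ (g : Fin l × Fin l → 𝓞 K) (G : Fin l × Fin l → Ideal (𝓞 K)),
      (∀ i, g i ≠ 0 ∧ g i ∈ G i ∧ Ideal.span {(N1 : 𝓞 K)} * G i ≤ Ideal.span {g i}) ∧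
      (∀ i j, i ≠ j → IsCoprime (G i) (G j)) ∧
      (∀ i j, i ≠ j → ∀ p : Pl K, G i ≤ p.asIdeal →
        ¬ BadL l J p ∧ (l : 𝓞 K) ∉ p.asIdeal ∧ g j ∉ p.asIdeal) ∧
      (∃ w ∈ W, ∃ c : K, c ≠ 0 ∧ a = (w : K) * (∏ i, (g i : K) ^ (i.1 : ℕ)) * c ^ l) ∧
      (∃ w ∈ W, ∃ c : K, c ≠ 0 ∧ b = (w : K) * (∏ i, (g i : K) ^ (i.2 : ℕ)) * c ^ l)

/-- a finite extension in which finitely many elements become `l`-th powers -/
theorem exists_roots (K L0 : Type) [Field K] [Field L0] [Algebra K L0] [FiniteDimensional K L0]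
    (l : ℕ) (hl : l ≠ 0) (W : Finset K) :
    ∃ (L : Type) (_ : Field L) (_ : Algebra K L) (_ : Algebra L0 L) (_ : IsScalarTower K L0 L),
      FiniteDimensional K L ∧ ∀ w ∈ W, ∃ r : L, r ^ l = algebraMap K L w := by
  classical
  let f : L0[X] := ∏ w ∈ W, (X ^ l - C (algebraMap K L0 w))
  have hdeg : ∀ w : K, (X ^ l - C (algebraMap K L0 w) : L0[X]).degree ≠ 0 := by
    intro w
    rw [degree_X_pow_sub_C (Nat.pos_of_ne_zero hl)]
    exact_mod_cast hl
  have hf0 : f ≠ 0 := Finset.prod_ne_zero_iff.2 fun w _ =>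
    X_pow_sub_C_ne_zero (Nat.pos_of_ne_zero hl) _
  refine ⟨f.SplittingField, inferInstance, inferInstance, inferInstance, inferInstance, ?_, ?_⟩
  · exact FiniteDimensional.trans K L0 f.SplittingField
  · intro w hw
    have hs : (f.map (algebraMap L0 f.SplittingField)).Splits := SplittingField.splits f
    have hd : (X ^ l - C (algebraMap K L0 w)) ∣ f := Finset.dvd_prod_of_mem _ hw
    have hs' : ((X ^ l - C (algebraMap K L0 w)).map (algebraMap L0 f.SplittingField)).Splits :=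
      hs.of_dvd ((Polynomial.map_ne_zero_iff (algebraMap L0 f.SplittingField).injective).2 hf0)
        (Polynomial.map_dvd _ hd)
    have hd' : ((X ^ l - C (algebraMap K L0 w)).map (algebraMap L0 f.SplittingField)).degree ≠ 0 := by
      rw [degree_map]
      exact hdeg w
    obtain ⟨r, hr⟩ := hs'.exists_eval_eq_zero hd'
    refine ⟨r, ?_⟩
    rw [Polynomial.map_sub, Polynomial.map_pow, Polynomial.map_X, Polynomial.map_C, eval_sub,
      eval_pow, eval_X, eval_C, sub_eq_zero] at hr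
    rw [hr, ← IsScalarTower.algebraMap_apply K L0]

/-- **R1** from the decomposition -/
theorem alg_of_decomp (K : Type) [Field K] [NumberField K] (l J : ℕ) (H : Facts l) (hl : l.Prime)
    (hJ : 2 ≤ J)
    (hD : Decomp K l) (h : CopStmt K l J) : AlgStmtL K l J := by
  classical
  obtain ⟨N1, W, hN1, hW, hD⟩ := hD
  obtain ⟨L0, iF0, iA0, hfd0, ⟨ζ, hζ⟩, hcop⟩ := h N1 hN1
  obtain ⟨L, iF, iA, iA', iT, hfd, hroot⟩ :=
    exists_roots K L0 l hl.ne_zero (W.image fun w : 𝓞 K => (w : K))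
  have hinj : Function.Injective (algebraMap L0 L) := (algebraMap L0 L).injective
  have hζL : IsPrimitiveRoot (algebraMap L0 L ζ) (l ^ J) := hζ.map_of_injective hinj
  have hζl : IsPrimitiveRoot ((algebraMap L0 L ζ) ^ (l ^ (J - 1))) l := by
    refine hζL.pow (pow_pos hl.pos _) ?_
    rw [← pow_succ]
    congr 1
    omega
  have hinjK : Function.Injective (algebraMap K L) := (algebraMap K L).injective
  have hch : CharZero L := charZero_of_injective_algebraMap hinjK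
  refine ⟨L, iF, iA, hfd, ⟨_, hζl⟩, ?_⟩
  intro a b ha hb hab
  obtain ⟨g, G, h1, h2, h3, ⟨w, hw, c, hc, hac⟩, ⟨w', hw', c', hc', hbc⟩⟩ := hD J a b ha hb hab
  obtain ⟨r, hr⟩ := hroot (w : K) (Finset.mem_image_of_mem _ hw)
  obtain ⟨r', hr'⟩ := hroot (w' : K) (Finset.mem_image_of_mem _ hw')
  have hmap0 : ∀ x : K, x ≠ 0 → algebraMap K L x ≠ 0 := fun x hx => by
    rwa [Ne, FaithfulSMul.algebraMap_eq_zero_iff]
  have hgK : ∀ i, ((g i : 𝓞 K) : K) ≠ 0 := fun i => by
    have := (h1 i).1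
    exact_mod_cast this
  have hne : ∀ w : 𝓞 K, w ∈ W → ((w : 𝓞 K) : K) ≠ 0 := fun w hw => by
    have : w ≠ 0 := fun h0 => hW (h0 ▸ hw)
    exact_mod_cast this
  have hr0 : r ≠ 0 := by
    rintro rfl
    rw [zero_pow hl.ne_zero] at hr
    exact hmap0 _ (hne w hw) hr.symm
  have hr0' : r' ≠ 0 := by
    rintro rfl
    rw [zero_pow hl.ne_zero] at hr'
    exact hmap0 _ (hne w' hw') hr'.symm
  have hpair : ∀ i j, IsNm l (algebraMap K L (g i : K)) (algebraMap K L (g j : K)) := by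
    intro i j
    rcases eq_or_ne i j with rfl | hij
    · exact isNm_same H hl hJ hζL _
    · have h4 := hcop (g i) (g j) (G i) (G j) (h1 i).1 (h1 j).1 (h1 i).2.1 (h1 j).2.1
        (h2 i j hij) (h1 i).2.2 (h1 j).2.2 (h3 i j hij) (h3 j i hij.symm)
      have h5 := H.map (E := L) h4
      rwa [← IsScalarTower.algebraMap_apply K L0 L, ← IsScalarTower.algebraMap_apply K L0 L] at h5
  have hAB := isNm_prod_prod H hζl (fun i => algebraMap K L (g i : K))
    (fun i => hmap0 _ (hgK i)) hpair (fun i => (i.1 : ℕ)) (fun i => (i.2 : ℕ))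
  have hA0 : (∏ i, (algebraMap K L (g i : K)) ^ (i.1 : ℕ)) ≠ 0 :=
    Finset.prod_ne_zero_iff.2 fun i _ => pow_ne_zero _ (hmap0 _ (hgK i))
  have hB0 : (∏ i, (algebraMap K L (g i : K)) ^ (i.2 : ℕ)) ≠ 0 :=
    Finset.prod_ne_zero_iff.2 fun i _ => pow_ne_zero _ (hmap0 _ (hgK i))
  have hfin := isNm_mul_pow H hζl hA0 hB0 (mul_ne_zero hr0 (hmap0 c hc))
    (mul_ne_zero hr0' (hmap0 c' hc')) hAB
  have ea : algebraMap K L a = (∏ i, (algebraMap K L (g i : K)) ^ (i.1 : ℕ)) *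
      (r * algebraMap K L c) ^ l := by
    rw [hac, map_mul, map_mul, map_prod, map_pow, mul_pow, hr]
    simp only [map_pow]
    ring
  have eb : algebraMap K L b = (∏ i, (algebraMap K L (g i : K)) ^ (i.2 : ℕ)) *
      (r' * algebraMap K L c') ^ l := by
    rw [hbc, map_mul, map_mul, map_prod, map_pow, mul_pow, hr']
    simp only [map_pow]
    ring
  rw [ea, eb]
  exact hfin

end Pool.Agent.Helper81.CL
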